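import Pool.Agent.Helper29.EP.FibB

/-! FIB: moments of the fibre sizes. -/

set_option autoImplicit false

open Polynomial Finset

namespace Pool.Agent.Helper29.EP

/-- moment of the fibre sizes -/
noncomputable def Mo (F : ℤ[X]) (s : ℝ) (q : ℕ) : ℝ :=
  ∑ r ∈ range q, ((fb F q r).card : ℝ) ^ s

/-- the constant of the local bound -/
noncomputable def G0 (d : ℕ) : ℝ := (1 - (2 : ℝ) ^ (-(1 : ℝ) / 2 ^ (d + 1)))⁻¹

lemma x0_lt (d : ℕ) : (2 : ℝ) ^ (-(1 : ℝ) / 2 ^ (d + 1)) < 1 := by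
  apply Real.rpow_lt_one_of_one_lt_of_neg (by norm_num)
  rw [neg_div, neg_lt_zero]
  positivity

lemma G0_pos (d : ℕ) : 0 < G0 d := inv_pos.2 (by linarith [x0_lt d])

lemma geom_le (x : ℝ) (h0 : 0 ≤ x) (h1 : x < 1) (n : ℕ) : ∑ k ∈ range n, x ^ k ≤ (1 - x)⁻¹ := by
  rw [← tsum_geometric_of_lt_one h0 h1]
  exact (summable_geometric_of_lt_one h0 h1).sum_le_tsum _ (fun _ _ => pow_nonneg h0 _)

theorem local_moment {p : ℕ} (hp : p.Prime) (F : ℤ[X]) (d : ℕ) (hF : F.natDegree ≤ d)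
    (hj : ∃ j, 1 ≤ j ∧ ¬ (p : ℤ) ∣ F.coeff j) (a : ℕ) (ha : 1 ≤ a) :
    Mo F (1 / 2 ^ (d + 2)) (p ^ a) ≤
      (2 * (2 * d : ℝ) ^ ((1 : ℝ) / 2 ^ (d + 2)) * ((d + 1) * d * G0 d)) * (p : ℝ) ^ a := by
  classical
  have hp0 : (0 : ℝ) < p := by exact_mod_cast hp.pos
  have hp1 : (1 : ℝ) ≤ p := by exact_mod_cast hp.one_lt.le
  have hp2 : (2 : ℝ) ≤ p := by exact_mod_cast hp.two_le
  set s : ℝ := 1 / 2 ^ (d + 2) with hs
  have hs0 : 0 < s := by rw [hs]; positivity
  have hd1 : 1 ≤ d := by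
    obtain ⟨j, hj1, hj2⟩ := hj
    have : F.coeff j ≠ 0 := by
      intro h0
      rw [h0] at hj2
      exact hj2 (dvd_zero _)
    exact hj1.trans ((le_natDegree_of_ne_zero this).trans hF)
  set N : ℕ → ℕ := fun r => (fb F (p ^ a) r).card with hN
  have hNle : ∀ r, N r ≤ p ^ a := by
    intro r
    have := card_filter_le (range (p ^ a)) fun x : ℕ =>
      ((p ^ a : ℕ) : ℤ) ∣ F.eval (x : ℤ) - F.eval (r : ℤ)
    rw [card_range] at this
    exact this
  have hex : ∀ r, ∃ w, N r < 2 * d * p ^ (2 * w) := by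
    intro r
    refine ⟨a, lt_of_le_of_lt (hNle r) ?_⟩
    have h1 : p ^ a ≤ p ^ (2 * a) := Nat.pow_le_pow_right hp.pos (by omega)
    have h2 : 0 < p ^ (2 * a) := pow_pos hp.pos _
    nlinarith
  set w : ℕ → ℕ := fun r => Nat.find (hex r) with hw
  have hw1 : ∀ r, N r < 2 * d * p ^ (2 * w r) := fun r => Nat.find_spec (hex r)
  have hwa : ∀ r, w r ≤ a := by
    intro r
    apply Nat.find_min'
    refine lt_of_le_of_lt (hNle r) ?_
    have h1 : p ^ a ≤ p ^ (2 * a) := Nat.pow_le_pow_right hp.pos (by omega)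
    have h2 : 0 < p ^ (2 * a) := pow_pos hp.pos _
    nlinarith
  -- at least half of the fibre has a derivative divisible by `p ^ w`
  have hhalf : ∀ r, N r ≤ 2 * ((fb F (p ^ a) r).filter fun x : ℕ =>
      ((p : ℤ) ^ w r) ∣ F.derivative.eval (x : ℤ)).card := by
    intro r
    rcases Nat.eq_zero_or_pos (w r) with h0 | h0
    · have h1 : ((fb F (p ^ a) r).filter fun x : ℕ =>
          ((p : ℤ) ^ w r) ∣ F.derivative.eval (x : ℤ)) = fb F (p ^ a) r := by
        rw [filter_eq_self]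
        intro x _
        rw [h0, pow_zero]
        exact one_dvd _
      rw [h1]
      show (fb F (p ^ a) r).card ≤ _
      omega
    · have h1 : ¬ N r < 2 * d * p ^ (2 * (w r - 1)) := Nat.find_min (hex r) (by
        show w r - 1 < w r
        omega)
      have h2 := fibre_small hp F d hF hj a (w r - 1) ha r
      rw [Nat.sub_add_cancel h0] at h2
      have h3 := card_filter_add_card_filter_not (s := fb F (p ^ a) r) (fun x : ℕ =>
          ((p : ℤ) ^ w r) ∣ F.derivative.eval (x : ℤ))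
      have h4 : N r = (fb F (p ^ a) r).card := rfl
      have h5 : 2 * d * p ^ (2 * (w r - 1)) = 2 * (d * p ^ (2 * (w r - 1))) := by ring
      rw [h5] at h1
      omega
  have hNpos : ∀ r ∈ range (p ^ a), 0 < N r := by
    intro r hr
    exact card_pos.2 ⟨r, self_mem_fb (mem_range.1 hr)⟩
  -- constancy on fibres
  have hconst : ∀ r x, x ∈ fb F (p ^ a) r → N x = N r ∧ w x = w r := by
    intro r x hx
    have h1 : N x = N r := by
      show (fb F (p ^ a) x).card = (fb F (p ^ a) r).card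
      rw [fb_eq hx]
    refine ⟨h1, ?_⟩
    show Nat.find (hex x) = Nat.find (hex r)
    apply Nat.find_congr'
    intro n
    rw [h1]
  have step1 : Mo F s (p ^ a) ≤ 2 * ∑ x ∈ range (p ^ a),
      (if ((p : ℤ) ^ w x) ∣ F.derivative.eval (x : ℤ) then (N x : ℝ) ^ s else 0) := by
    have h1 : Mo F s (p ^ a) ≤ ∑ r ∈ range (p ^ a), 2 * ∑ x ∈ range (p ^ a),
        (if x ∈ fb F (p ^ a) r ∧ ((p : ℤ) ^ w r) ∣ F.derivative.eval (x : ℤ) then
          (N r : ℝ) ^ (s - 1) else 0) := by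
      unfold Mo
      apply sum_le_sum
      intro r hr
      have h2 : (0 : ℝ) < N r := by exact_mod_cast hNpos r hr
      have h3 : (N r : ℝ) ^ s = (N r : ℝ) * (N r : ℝ) ^ (s - 1) := by
        rw [Real.rpow_sub_one h2.ne']
        field_simp
      have h4 : ∑ x ∈ range (p ^ a),
        (if x ∈ fb F (p ^ a) r ∧ ((p : ℤ) ^ w r) ∣ F.derivative.eval (x : ℤ) then
          (N r : ℝ) ^ (s - 1) else 0) = (((fb F (p ^ a) r).filter fun x : ℕ =>
      ((p : ℤ) ^ w r) ∣ F.derivative.eval (x : ℤ)).card : ℝ) * (N r : ℝ) ^ (s - 1) := by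
        rw [← sum_filter, sum_const, nsmul_eq_mul]
        congr 2
        congr 1
        ext x
        simp only [mem_filter, mem_range]
        constructor
        · rintro ⟨h5, h6, h7⟩; exact ⟨h6, h7⟩
        · rintro ⟨h6, h7⟩; exact ⟨(mem_fb.1 h6).1, h6, h7⟩
      rw [h4]
      show (N r : ℝ) ^ s ≤ _
      rw [h3, ← mul_assoc]
      apply mul_le_mul_of_nonneg_right _ (Real.rpow_nonneg h2.le _)
      exact_mod_cast hhalf r
    refine h1.trans (le_of_eq ?_)
    rw [← mul_sum, sum_comm]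
    congr 1
    apply sum_congr rfl
    intro x hx
    have hxlt := mem_range.1 hx
    have h2 : (0 : ℝ) < N x := by exact_mod_cast hNpos x hx
    have h5 : ∀ r ∈ range (p ^ a), (if x ∈ fb F (p ^ a) r ∧
        ((p : ℤ) ^ w r) ∣ F.derivative.eval (x : ℤ) then (N r : ℝ) ^ (s - 1) else 0) =
        if r ∈ fb F (p ^ a) x ∧ ((p : ℤ) ^ w x) ∣ F.derivative.eval (x : ℤ) then
          (N x : ℝ) ^ (s - 1) else 0 := by
      intro r hr
      have hrlt := mem_range.1 hr
      by_cases hxr : x ∈ fb F (p ^ a) r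
      · obtain ⟨c1, c2⟩ := hconst r x hxr
        have hrx := mem_fb_symm hrlt hxr
        simp only [hxr, hrx, true_and, c1, c2]
      · have hrx : ¬ r ∈ fb F (p ^ a) x := fun h => hxr (mem_fb_symm hxlt h)
        simp only [hxr, hrx, false_and, if_false]
    rw [sum_congr rfl h5]
    split_ifs with h6
    · simp only [h6, and_true]
      rw [← sum_filter, sum_const, nsmul_eq_mul]
      have h7 : ((range (p ^ a)).filter fun r => r ∈ fb F (p ^ a) x) = fb F (p ^ a) x := by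
        ext r
        simp only [mem_filter, mem_range]
        exact ⟨fun h => h.2, fun h => ⟨(mem_fb.1 h).1, h⟩⟩
      rw [h7]
      show (N x : ℝ) * (N x : ℝ) ^ (s - 1) = _
      rw [Real.rpow_sub_one h2.ne']
      field_simp
    · simp only [h6, and_false, if_false, sum_const_zero]
  have step2 : ∀ x ∈ range (p ^ a),
      (if ((p : ℤ) ^ w x) ∣ F.derivative.eval (x : ℤ) then (N x : ℝ) ^ s else 0) ≤
      (2 * d : ℝ) ^ s * ∑ k ∈ range (a + 1),
        (if (((p ^ k : ℕ)) : ℤ) ∣ F.derivative.eval (x : ℤ) then ((p : ℝ) ^ (2 * s * k)) else 0) := by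
    intro x hx
    have hterm : ∀ k ∈ range (a + 1), (0 : ℝ) ≤
        (if (((p ^ k : ℕ)) : ℤ) ∣ F.derivative.eval (x : ℤ) then ((p : ℝ) ^ (2 * s * k)) else 0) := by
      intro k _
      split_ifs
      · positivity
      · exact le_rfl
    split_ifs with h6
    · have h7 := single_le_sum hterm (mem_range.2 (Nat.lt_succ_of_le (hwa x)))
      have h8 : (((p ^ w x : ℕ)) : ℤ) ∣ F.derivative.eval (x : ℤ) := by
        push_cast
        exact h6
      rw [if_pos h8] at h7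
      have h9 : (N x : ℝ) ^ s ≤ (2 * d : ℝ) ^ s * (p : ℝ) ^ (2 * s * (w x : ℝ)) := by
        have h10 : (N x : ℝ) ≤ 2 * d * (p : ℝ) ^ (2 * w x) := by
          have := (hw1 x).le
          exact_mod_cast this
        calc (N x : ℝ) ^ s ≤ (2 * d * (p : ℝ) ^ (2 * w x)) ^ s :=
              Real.rpow_le_rpow (Nat.cast_nonneg _) h10 hs0.le
          _ = (2 * d : ℝ) ^ s * (p : ℝ) ^ (2 * s * (w x : ℝ)) := by
              rw [Real.mul_rpow (by positivity) (by positivity), ← Real.rpow_natCast (p : ℝ),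
                ← Real.rpow_mul hp0.le]
              congr 2
              push_cast
              ring
      exact h9.trans (mul_le_mul_of_nonneg_left h7 (by positivity))
    · exact mul_nonneg (by positivity) (sum_nonneg hterm)
  have step3 : ∑ x ∈ range (p ^ a), ∑ k ∈ range (a + 1),
      (if (((p ^ k : ℕ)) : ℤ) ∣ F.derivative.eval (x : ℤ) then ((p : ℝ) ^ (2 * s * k)) else 0) ≤
      (d + 1) * d * G0 d * (p : ℝ) ^ a := by
    rw [sum_comm]
    have h1 : ∀ k ∈ range (a + 1), ∑ x ∈ range (p ^ a),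
        (if (((p ^ k : ℕ)) : ℤ) ∣ F.derivative.eval (x : ℤ) then ((p : ℝ) ^ (2 * s * k)) else 0) ≤
        (d + 1) * d * (p : ℝ) ^ a * ((2 : ℝ) ^ (-(1 : ℝ) / 2 ^ (d + 1))) ^ k := by
      intro k hk
      rw [← sum_filter, sum_const, nsmul_eq_mul]
      have h2 := cnt_deriv hp F d hF hj k a (Nat.lt_succ_iff.1 (mem_range.1 hk))
      unfold cn at h2
      have h2D : (0 : ℝ) < 2 ^ d := by positivity
      have h3 : (p : ℝ) ^ (-(k : ℝ) / 2 ^ d) * (p : ℝ) ^ (2 * s * (k : ℝ)) ≤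
          ((2 : ℝ) ^ (-(1 : ℝ) / 2 ^ (d + 1))) ^ k := by
        rw [← Real.rpow_add hp0, ← Real.rpow_natCast ((2 : ℝ) ^ (-(1 : ℝ) / 2 ^ (d + 1))) k,
          ← Real.rpow_mul (by norm_num)]
        have e1 : -(k : ℝ) / 2 ^ d + 2 * s * (k : ℝ) = -(k : ℝ) / 2 ^ (d + 1) := by
          rw [hs, pow_succ, pow_succ]
          field_simp
          ring
        have e2 : -(1 : ℝ) / 2 ^ (d + 1) * (k : ℝ) = -(k : ℝ) / 2 ^ (d + 1) := by ring
        rw [e1, e2]
        apply Real.rpow_le_rpow_of_nonpos (by norm_num) hp2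
        rw [neg_div, neg_nonpos]
        positivity
      calc _ ≤ ((d + 1) * d * (p : ℝ) ^ a * (p : ℝ) ^ (-(k : ℝ) / 2 ^ d)) *
            (p : ℝ) ^ (2 * s * (k : ℝ)) := mul_le_mul_of_nonneg_right h2 (by positivity)
        _ = (d + 1) * d * (p : ℝ) ^ a * ((p : ℝ) ^ (-(k : ℝ) / 2 ^ d) *
            (p : ℝ) ^ (2 * s * (k : ℝ))) := by ring
        _ ≤ _ := mul_le_mul_of_nonneg_left h3 (by positivity)
    refine (sum_le_sum h1).trans ?_
    rw [← mul_sum]
    have h4 := geom_le ((2 : ℝ) ^ (-(1 : ℝ) / 2 ^ (d + 1))) (by positivity) (x0_lt d) (a + 1)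
    calc _ ≤ (d + 1) * d * (p : ℝ) ^ a * G0 d := mul_le_mul_of_nonneg_left h4 (by positivity)
      _ = _ := by ring
  calc Mo F s (p ^ a) ≤ 2 * ∑ x ∈ range (p ^ a),
      (if ((p : ℤ) ^ w x) ∣ F.derivative.eval (x : ℤ) then (N x : ℝ) ^ s else 0) := step1
    _ ≤ 2 * ∑ x ∈ range (p ^ a), ((2 * d : ℝ) ^ s * ∑ k ∈ range (a + 1),
        (if (((p ^ k : ℕ)) : ℤ) ∣ F.derivative.eval (x : ℤ) then
          ((p : ℝ) ^ (2 * s * k)) else 0)) :=
        mul_le_mul_of_nonneg_left (sum_le_sum step2) (by norm_num)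
    _ = 2 * (2 * d : ℝ) ^ s * ∑ x ∈ range (p ^ a), ∑ k ∈ range (a + 1),
        (if (((p ^ k : ℕ)) : ℤ) ∣ F.derivative.eval (x : ℤ) then
          ((p : ℝ) ^ (2 * s * k)) else 0) := by rw [← mul_sum]; ring
    _ ≤ 2 * (2 * d : ℝ) ^ s * ((d + 1) * d * G0 d * (p : ℝ) ^ a) :=
        mul_le_mul_of_nonneg_left step3 (by positivity)
    _ = _ := by ring

end Pool.Agent.Helper29.EP
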