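import Pool.Agent.Helper20.EP.Spec1
import Pool.Agent.Helper29.EP.FibC

/-! FIB: multiplicativity and the final statement. -/

set_option autoImplicit false

open Polynomial Finset

namespace Pool.Agent.Helper29.EP

open Pool.Agent.Helper20.EP

section ring

open scoped Classical

/-- fibre sizes in a finite ring -/
noncomputable def NR (F : ℤ[X]) (R : Type) [CommRing R] [Fintype R] (r : R) : ℕ :=
  (univ.filter fun x : R => aeval x F = aeval r F).card

/-- moment in a finite ring -/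
noncomputable def MR (F : ℤ[X]) (s : ℝ) (R : Type) [CommRing R] [Fintype R] : ℝ :=
  ∑ r : R, (NR F R r : ℝ) ^ s

lemma hom_aeval (F : ℤ[X]) {R S : Type} [CommRing R] [CommRing S] (φ : R →+* S) (x : R) :
    φ (aeval x F) = aeval (φ x) F := by
  rw [aeval_def, aeval_def, hom_eval₂]
  congr 1
  exact RingHom.ext_int _ _

lemma NR_equiv (F : ℤ[X]) {R S : Type} [CommRing R] [Fintype R] [CommRing S] [Fintype S]
    (e : R ≃+* S) (r : R) : NR F R r = NR F S (e r) := by
  unfold NR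
  apply card_bij (fun x _ => e x)
  · intro x hx
    simp only [mem_filter, mem_univ, true_and] at hx ⊢
    have h1 := hom_aeval F (e : R →+* S) x
    have h2 := hom_aeval F (e : R →+* S) r
    simp only [RingEquiv.coe_toRingHom] at h1 h2
    rw [← h1, ← h2, hx]
  · intro x _ y _ h
    exact e.injective h
  · intro y hy
    simp only [mem_filter, mem_univ, true_and] at hy
    refine ⟨e.symm y, ?_, e.apply_symm_apply y⟩
    simp only [mem_filter, mem_univ, true_and]
    apply e.injective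
    have h1 := hom_aeval F (e : R →+* S) (e.symm y)
    have h2 := hom_aeval F (e : R →+* S) r
    simp only [RingEquiv.coe_toRingHom] at h1 h2
    rw [h1, h2, e.apply_symm_apply, hy]

lemma MR_equiv (F : ℤ[X]) (s : ℝ) {R S : Type} [CommRing R] [Fintype R] [CommRing S] [Fintype S]
    (e : R ≃+* S) : MR F s R = MR F s S := by
  unfold MR
  exact Fintype.sum_equiv e.toEquiv _ _ fun r => by rw [NR_equiv F e r]; rfl

lemma NR_prod (F : ℤ[X]) {R S : Type} [CommRing R] [Fintype R] [CommRing S] [Fintype S]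
    (r : R × S) : NR F (R × S) r = NR F R r.1 * NR F S r.2 := by
  unfold NR
  rw [← card_product]
  congr 1
  ext x
  simp only [mem_filter, mem_univ, true_and, mem_product]
  have h1 := hom_aeval F (RingHom.fst R S) x
  have h2 := hom_aeval F (RingHom.fst R S) r
  have h3 := hom_aeval F (RingHom.snd R S) x
  have h4 := hom_aeval F (RingHom.snd R S) r
  simp only [RingHom.coe_fst, RingHom.coe_snd] at h1 h2 h3 h4
  rw [← h1, ← h2, ← h3, ← h4, Prod.ext_iff]

lemma MR_prod (F : ℤ[X]) (s : ℝ) {R S : Type} [CommRing R] [Fintype R] [CommRing S] [Fintype S] :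
    MR F s (R × S) = MR F s R * MR F s S := by
  unfold MR
  rw [Fintype.sum_prod_type, sum_mul_sum]
  refine sum_congr rfl fun r _ => sum_congr rfl fun r' _ => ?_
  rw [NR_prod]
  push_cast
  rw [Real.mul_rpow (Nat.cast_nonneg _) (Nat.cast_nonneg _)]

lemma aeval_cast (F : ℤ[X]) (q : ℕ) (x : ℕ) :
    aeval ((x : ℕ) : ZMod q) F = ((F.eval (x : ℤ) : ℤ) : ZMod q) := by
  have h := hom_aeval F (Int.castRingHom (ZMod q)) (x : ℤ)
  simp only [eq_intCast, Int.cast_natCast] at h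
  rw [← h, coe_aeval_eq_eval]

lemma fb_card (F : ℤ[X]) (q : ℕ) [NeZero q] (r : ℕ) : (fb F q r).card = NR F (ZMod q) (r : ZMod q) := by
  unfold NR
  apply card_bij (fun x _ => ((x : ℕ) : ZMod q))
  · intro x hx
    simp only [mem_filter, mem_univ, true_and]
    rw [mem_fb] at hx
    rw [aeval_cast, aeval_cast]
    have h1 := (ZMod.intCast_zmod_eq_zero_iff_dvd _ _).2 hx.2
    push_cast at h1
    exact sub_eq_zero.1 h1
  · intro x hx y hy hxy
    rw [mem_fb] at hx hy
    have h1 : ((x : ℕ) : ZMod q) = ((y : ℕ) : ZMod q) := hxy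
    rw [ZMod.natCast_eq_natCast_iff'] at h1
    rwa [Nat.mod_eq_of_lt hx.1, Nat.mod_eq_of_lt hy.1] at h1
  · intro y hy
    simp only [mem_filter, mem_univ, true_and] at hy
    refine ⟨y.val, ?_, ZMod.natCast_zmod_val y⟩
    rw [mem_fb]
    refine ⟨ZMod.val_lt y, ?_⟩
    rw [← ZMod.intCast_zmod_eq_zero_iff_dvd]
    push_cast
    rw [sub_eq_zero, ← aeval_cast, ← aeval_cast, ZMod.natCast_zmod_val]
    exact hy

lemma Mo_eq (F : ℤ[X]) (s : ℝ) (q : ℕ) [NeZero q] : Mo F s q = MR F s (ZMod q) := by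
  unfold Mo MR
  apply sum_bij (fun x _ => ((x : ℕ) : ZMod q))
  · intro x _
    exact mem_univ _
  · intro x hx y hy hxy
    rw [mem_range] at hx hy
    have h1 : ((x : ℕ) : ZMod q) = ((y : ℕ) : ZMod q) := hxy
    rw [ZMod.natCast_eq_natCast_iff'] at h1
    rwa [Nat.mod_eq_of_lt hx, Nat.mod_eq_of_lt hy] at h1
  · intro y _
    exact ⟨y.val, mem_range.2 (ZMod.val_lt y), ZMod.natCast_zmod_val y⟩
  · intro x _
    rw [fb_card]

lemma Mo_mul (F : ℤ[X]) (s : ℝ) (a b : ℕ) (ha : 0 < a) (hb : 0 < b) (h : a.Coprime b) :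
    Mo F s (a * b) = Mo F s a * Mo F s b := by
  have : NeZero a := ⟨ha.ne'⟩
  have : NeZero b := ⟨hb.ne'⟩
  rw [Mo_eq, Mo_eq, Mo_eq, MR_equiv F s (ZMod.chineseRemainder h), MR_prod]

end ring

/-- the factor of a prime in the global bound -/
noncomputable def kap (C₀ : ℝ) (P₀ : ℕ) (p : ℕ) : ℝ := if p < P₀ then C₀ else 1

theorem global_moment (F : ℤ[X]) (s ε C₀ : ℝ) (hε : 0 < ε) (hC : 1 ≤ C₀) (P₀ : ℕ)
    (hP : ∀ p : ℕ, P₀ ≤ p → C₀ ≤ (p : ℝ) ^ ε)
    (hloc : ∀ p : ℕ, p.Prime → (∃ j, 1 ≤ j ∧ ¬ (p : ℤ) ∣ F.coeff j) → ∀ a : ℕ, 1 ≤ a →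
      Mo F s (p ^ a) ≤ C₀ * (p : ℝ) ^ a) (q : ℕ) :
    1 ≤ q → (∀ p : ℕ, p.Prime → p ∣ q → ∃ j, 1 ≤ j ∧ ¬ (p : ℤ) ∣ F.coeff j) →
      Mo F s q ≤ (∏ p ∈ q.primeFactors, kap C₀ P₀ p) * (q : ℝ) ^ (1 + ε) := by
  induction q using Nat.recOnPosPrimePosCoprime with
  | zero => intro h; omega
  | one =>
    intro _ _
    have h1 : Mo F s 1 = 1 := by
      unfold Mo
      rw [sum_range_one]
      have : fb F 1 0 = {0} := by
        ext x
        rw [mem_fb, mem_singleton]
        constructor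
        · rintro ⟨h, -⟩; omega
        · rintro rfl; exact ⟨by omega, by simp⟩
      rw [this, card_singleton, Nat.cast_one, Real.one_rpow]
    rw [h1]
    simp
  | prime_pow p n hp hn =>
    intro _ hj
    have hj' := hj p hp (dvd_pow_self p (by omega))
    have h1 := hloc p hp hj' n (by omega)
    have hp0 : (0 : ℝ) < p := by exact_mod_cast hp.pos
    have hp1 : (1 : ℝ) ≤ p := by exact_mod_cast hp.one_lt.le
    rw [Nat.primeFactors_prime_pow (by omega) hp, prod_singleton]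
    refine h1.trans ?_
    have h2 : ((p ^ n : ℕ) : ℝ) ^ (1 + ε) = (p : ℝ) ^ n * ((p : ℝ) ^ n) ^ ε := by
      push_cast
      rw [Real.rpow_add (by positivity), Real.rpow_one]
    rw [h2]
    have h3 : (1 : ℝ) ≤ ((p : ℝ) ^ n) ^ ε := Real.one_le_rpow (one_le_pow₀ hp1) hε.le
    unfold kap
    split_ifs with h4
    · have : (0 : ℝ) ≤ C₀ * (p : ℝ) ^ n := by positivity
      nlinarith
    · push Not at h4
      have h5 : (p : ℝ) ^ ε ≤ ((p : ℝ) ^ n) ^ ε := by
        apply Real.rpow_le_rpow hp0.le _ hε.le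
        exact le_self_pow₀ hp1 (by omega)
      have h6 := (hP p h4).trans h5
      have h7 : (0 : ℝ) ≤ (p : ℝ) ^ n := by positivity
      rw [one_mul, mul_comm]
      exact mul_le_mul_of_nonneg_left h6 h7
  | coprime a b ha hb hab iha ihb =>
    intro _ hj
    have h1 := iha (by omega) (fun p hp hpa => hj p hp (hpa.mul_right b))
    have h2 := ihb (by omega) (fun p hp hpb => hj p hp (hpb.mul_left a))
    rw [Mo_mul F s a b (by omega) (by omega) hab, hab.primeFactors_mul,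
      prod_union hab.disjoint_primeFactors]
    have h3 : ((a * b : ℕ) : ℝ) ^ (1 + ε) = (a : ℝ) ^ (1 + ε) * (b : ℝ) ^ (1 + ε) := by
      push_cast
      exact Real.mul_rpow (Nat.cast_nonneg _) (Nat.cast_nonneg _)
    rw [h3]
    have h4 : 0 ≤ Mo F s b := by
      unfold Mo
      exact sum_nonneg fun _ _ => Real.rpow_nonneg (Nat.cast_nonneg _) _
    have h5 : ∀ m : ℕ, 0 ≤ ∏ p ∈ m.primeFactors, kap C₀ P₀ p := by
      intro m
      apply prod_nonneg
      intro p _
      unfold kap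
      split_ifs
      · linarith
      · norm_num
    calc Mo F s a * Mo F s b ≤ ((∏ p ∈ a.primeFactors, kap C₀ P₀ p) * (a : ℝ) ^ (1 + ε)) *
          ((∏ p ∈ b.primeFactors, kap C₀ P₀ p) * (b : ℝ) ^ (1 + ε)) :=
          mul_le_mul h1 h2 h4 (mul_nonneg (h5 a) (by positivity))
      _ = _ := by ring

theorem main : S_FIB := by
  intro d η hη
  set s : ℝ := 1 / 2 ^ (d + 2) with hs
  have hs0 : 0 < s := by rw [hs]; positivity
  set ε : ℝ := s * η / 2 with hεdef
  have hε : 0 < ε := by rw [hεdef]; positivity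
  set C₁ : ℝ := 2 * (2 * d : ℝ) ^ ((1 : ℝ) / 2 ^ (d + 2)) * ((d + 1) * d * G0 d) with hC₁
  set C₀ : ℝ := max 1 C₁ with hC₀
  have hC : 1 ≤ C₀ := le_max_left _ _
  obtain ⟨P₀, hP₀⟩ : ∃ P₀ : ℕ, C₀ ^ (1 / ε) ≤ P₀ := exists_nat_ge _
  have hP : ∀ p : ℕ, P₀ ≤ p → C₀ ≤ (p : ℝ) ^ ε := by
    intro p hp
    have h1 : C₀ ^ (1 / ε) ≤ p := hP₀.trans (by exact_mod_cast hp)
    calc C₀ = (C₀ ^ (1 / ε)) ^ ε := by
          rw [← Real.rpow_mul (by linarith), one_div, inv_mul_cancel₀ hε.ne', Real.rpow_one]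
      _ ≤ (p : ℝ) ^ ε := Real.rpow_le_rpow (by positivity) h1 hε.le
  refine ⟨ε, C₀ ^ P₀, hε, ?_⟩
  intro F q hF hq hg
  have hj : ∀ p : ℕ, p.Prime → p ∣ q → ∃ j, 1 ≤ j ∧ ¬ (p : ℤ) ∣ F.coeff j := by
    intro p hp hpq
    by_contra hcon
    push Not at hcon
    have := hg p hpq hcon
    exact hp.one_lt.ne' this
  have hloc : ∀ p : ℕ, p.Prime → (∃ j, 1 ≤ j ∧ ¬ (p : ℤ) ∣ F.coeff j) → ∀ a : ℕ, 1 ≤ a →
      Mo F s (p ^ a) ≤ C₀ * (p : ℝ) ^ a := by
    intro p hp hpj a ha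
    refine (local_moment hp F d hF hpj a ha).trans ?_
    exact mul_le_mul_of_nonneg_right (le_max_right _ _) (by positivity)
  have h1 := global_moment F s ε C₀ hε hC P₀ hP hloc q hq hj
  have h2 : ∏ p ∈ q.primeFactors, kap C₀ P₀ p ≤ C₀ ^ P₀ := by
    unfold kap
    rw [prod_ite, prod_const, prod_const_one, mul_one]
    apply pow_le_pow_right₀ hC
    calc (q.primeFactors.filter fun p => p < P₀).card ≤ (range P₀).card := by
          apply card_le_card
          intro p hp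
          exact mem_range.2 (mem_filter.1 hp).2
      _ = P₀ := card_range _
  have hq0 : (0 : ℝ) < q := by exact_mod_cast hq
  -- Markov
  set B := (range q).filter fun r : ℕ => (q : ℝ) ^ η <
        (((range q).filter fun r' : ℕ =>
          (q : ℤ) ∣ F.eval (r' : ℤ) - F.eval (r : ℤ)).card : ℝ) with hB
  have h3 : (B.card : ℝ) * ((q : ℝ) ^ η) ^ s ≤ Mo F s q := by
    rw [← nsmul_eq_mul, ← sum_const]
    unfold Mo
    calc ∑ _r ∈ B, ((q : ℝ) ^ η) ^ s ≤ ∑ r ∈ B, ((fb F q r).card : ℝ) ^ s := by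
          apply sum_le_sum
          intro r hr
          rw [hB, mem_filter] at hr
          exact Real.rpow_le_rpow (by positivity) hr.2.le hs0.le
      _ ≤ ∑ r ∈ range q, ((fb F q r).card : ℝ) ^ s :=
          sum_le_sum_of_subset_of_nonneg (filter_subset _ _)
            fun _ _ _ => Real.rpow_nonneg (Nat.cast_nonneg _) _
  have h4 : (B.card : ℝ) * ((q : ℝ) ^ η) ^ s ≤ C₀ ^ P₀ * (q : ℝ) ^ (1 + ε) :=
    h3.trans (h1.trans (mul_le_mul_of_nonneg_right h2 (by positivity)))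
  have h5 : ((q : ℝ) ^ η) ^ s = (q : ℝ) ^ (2 * ε) := by
    rw [← Real.rpow_mul hq0.le]
    congr 1
    rw [hεdef]
    ring
  have h6 : (q : ℝ) ^ (1 + ε) = (q : ℝ) ^ (1 - ε) * (q : ℝ) ^ (2 * ε) := by
    rw [← Real.rpow_add hq0]
    congr 1
    ring
  rw [h5, h6, ← mul_assoc] at h4
  exact le_of_mul_le_mul_right h4 (by positivity)

end Pool.Agent.Helper29.EP
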