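import Pool.Agent.Helper20.EP.Defs

/-! FIB, local part: roots of polynomials modulo prime powers. -/

set_option autoImplicit false

open Polynomial Finset

namespace Pool.Agent.Helper29.EP

/-- number of `x < N` with `m ∣ h x` -/
def cn (h : ℤ[X]) (m N : ℕ) : ℕ := ((range N).filter fun x : ℕ => (m : ℤ) ∣ h.eval (x : ℤ)).card

lemma cn_le (h : ℤ[X]) (m N : ℕ) : cn h m N ≤ N := by
  unfold cn
  exact (card_filter_le _ _).trans (card_range N).le

/-- one residue class -/
lemma cnt_modEq (M N : ℕ) (_hM : 0 < M) (hMN : M ∣ N) (c : ℤ) :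
    ((range N).filter fun x : ℕ => (M : ℤ) ∣ (x : ℤ) - c).card ≤ N / M := by
  calc ((range N).filter fun x : ℕ => (M : ℤ) ∣ (x : ℤ) - c).card ≤ (range (N / M)).card := by
        apply card_le_card_of_injOn (fun x => x / M)
        · intro x hx
          simp only [coe_filter, mem_range, Set.mem_ofPred_eq] at hx
          simp only [coe_range, Set.mem_Iio]
          exact Nat.div_lt_div_of_lt_of_dvd hMN hx.1
        · intro x hx y hy hxy
          simp only [coe_filter, mem_range, Set.mem_ofPred_eq] at hx hy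
          have h1 : (M : ℤ) ∣ (x : ℤ) - y := by
            have := dvd_sub hx.2 hy.2
            have h2 : (x : ℤ) - c - (y - c) = x - y := by ring
            rwa [h2] at this
          have h3 : x % M = y % M := by
            have h4 : (x : ℤ) % M = (y : ℤ) % M := (Int.emod_emod_of_dvd _ dvd_rfl).symm ▸
              (Int.emod_emod_of_dvd _ dvd_rfl).symm ▸ (Int.ModEq.symm ((Int.modEq_iff_dvd).2 h1))
            exact_mod_cast h4
          have hxy' : x / M = y / M := hxy
          calc x = M * (x / M) + x % M := (Nat.div_add_mod x M).symm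
            _ = M * (y / M) + y % M := by rw [hxy', h3]
            _ = y := Nat.div_add_mod y M
    _ = N / M := card_range _

lemma pow_split {p : ℕ} (hp : p.Prime) {a v : ℕ} {h u : ℤ} (h1 : ((p : ℤ) ^ a) ∣ h * u)
    (h2 : ¬ ((p : ℤ) ^ (v + 1)) ∣ u) : ((p : ℤ) ^ (a - v)) ∣ h := by
  have hpz : Prime (p : ℤ) := Nat.prime_iff_prime_int.1 hp
  have hu : u ≠ 0 := by
    rintro rfl
    exact h2 (dvd_zero _)
  have hfin : FiniteMultiplicity (p : ℤ) u := by
    refine Int.finiteMultiplicity_iff.2 ⟨?_, hu⟩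
    simpa using hp.one_lt.ne'
  obtain ⟨c, hc, hc'⟩ := hfin.exists_eq_pow_mul_and_not_dvd
  set w := multiplicity (p : ℤ) u
  have hwv : w ≤ v := by
    by_contra hlt
    push Not at hlt
    exact h2 ((pow_dvd_pow _ (by omega)).trans ⟨c, hc⟩)
  have h3 : ((p : ℤ) ^ (a - w)) ∣ h := by
    rcases le_or_gt w a with hwa | hwa
    · have h4 : (p : ℤ) ^ a = p ^ w * p ^ (a - w) := by rw [← pow_add]; congr 1; omega
      rw [h4, hc, show h * ((p : ℤ) ^ w * c) = p ^ w * (h * c) by ring] at h1
      have h5 : ((p : ℤ) ^ (a - w)) ∣ h * c :=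
        (mul_dvd_mul_iff_left (pow_ne_zero _ hpz.ne_zero)).1 h1
      exact (IsCoprime.pow_left ((Prime.coprime_iff_not_dvd hpz).2 hc')).dvd_of_dvd_mul_right h5
    · have : a - w = 0 := by omega
      rw [this, pow_zero]
      exact one_dvd _
  exact (pow_dvd_pow _ (by omega)).trans h3

/-- roots modulo prime powers -/
lemma cnt_roots {p : ℕ} (hp : p.Prime) (D : ℕ) : ∀ h : ℤ[X], h.natDegree ≤ D →
    ¬ C (p : ℤ) ∣ h → ∀ k a : ℕ, k ≤ a →
    (cn h (p ^ k) (p ^ a) : ℝ) ≤ (D + 1) * (p : ℝ) ^ a * (p : ℝ) ^ (-(k : ℝ) / 2 ^ D) := by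
  have hp0 : (0 : ℝ) < p := by exact_mod_cast hp.pos
  have hp1 : (1 : ℝ) ≤ p := by exact_mod_cast hp.one_lt.le
  induction D with
  | zero =>
    intro h hdeg hnd k a hka
    rcases Nat.eq_zero_or_pos k with rfl | hk
    · have := cn_le h (p ^ 0) (p ^ a)
      have h1 : (cn h (p ^ 0) (p ^ a) : ℝ) ≤ (p : ℝ) ^ a := by exact_mod_cast this
      simpa using h1
    · have h0 : cn h (p ^ k) (p ^ a) = 0 := by
        unfold cn
        rw [card_eq_zero, filter_eq_empty_iff]
        intro x _ hx
        apply hnd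
        rw [Polynomial.eq_C_of_natDegree_le_zero hdeg] at hx ⊢
        rw [eval_C] at hx
        have h1 : (p : ℤ) ∣ ((p ^ k : ℕ) : ℤ) := by
          push_cast
          exact dvd_pow_self _ hk.ne'
        exact map_dvd C (h1.trans hx)
      rw [h0, Nat.cast_zero]
      positivity
  | succ D ih =>
    intro h hdeg hnd k a hka
    rcases Nat.eq_zero_or_pos k with rfl | hk
    · have := cn_le h (p ^ 0) (p ^ a)
      have h1 : (cn h (p ^ 0) (p ^ a) : ℝ) ≤ (p : ℝ) ^ a := by exact_mod_cast this
      have h2 : (1 : ℝ) ≤ ((D + 1 : ℕ) : ℝ) + 1 := by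
        have : (0 : ℝ) ≤ ((D + 1 : ℕ) : ℝ) := Nat.cast_nonneg _
        linarith
      calc (cn h (p ^ 0) (p ^ a) : ℝ) ≤ (p : ℝ) ^ a := h1
        _ ≤ (((D + 1 : ℕ) : ℝ) + 1) * (p : ℝ) ^ a * (p : ℝ) ^ (-((0 : ℕ) : ℝ) / 2 ^ (D + 1)) := by
            rw [Nat.cast_zero, neg_zero, zero_div, Real.rpow_zero, mul_one]
            have : (0 : ℝ) ≤ (p : ℝ) ^ a := by positivity
            nlinarith
    · by_cases hex : ∃ x₀ : ℕ, ((p ^ k : ℕ) : ℤ) ∣ h.eval (x₀ : ℤ)
      · obtain ⟨x₀, hx₀⟩ := hex
        obtain ⟨h₁, hh₁⟩ := X_sub_C_dvd_sub_C_eval (a := (x₀ : ℤ)) (p := h)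
        have hpk : (p : ℤ) ∣ h.eval (x₀ : ℤ) := by
          refine dvd_trans ?_ hx₀
          push_cast
          exact dvd_pow_self _ hk.ne'
        have hdeg1 : h₁.natDegree ≤ D := by
          by_cases hz : h₁ = 0
          · rw [hz, natDegree_zero]; omega
          · have h2 : ((X - C (x₀ : ℤ)) * h₁).natDegree = 1 + h₁.natDegree := by
              rw [natDegree_mul (X_sub_C_ne_zero _) hz, natDegree_X_sub_C]
            have h3 : (h - C (h.eval (x₀ : ℤ))).natDegree ≤ D + 1 := by
              refine (natDegree_sub_le _ _).trans ?_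
              rw [natDegree_C]
              omega
            rw [hh₁, h2] at h3
            omega
        have hnd1 : ¬ C (p : ℤ) ∣ h₁ := by
          intro hc
          apply hnd
          have h2 : C (p : ℤ) ∣ h - C (h.eval (x₀ : ℤ)) := by
            rw [hh₁]
            exact hc.mul_left _
          have h3 : C (p : ℤ) ∣ C (h.eval (x₀ : ℤ)) := map_dvd C hpk
          have := dvd_add h2 h3
          rwa [sub_add_cancel] at this
        set m := (k + 1) / 2 with hm
        have hma : m ≤ a := by omega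
        have hsub : ((range (p ^ a)).filter fun x : ℕ => ((p ^ k : ℕ) : ℤ) ∣ h.eval (x : ℤ)) ⊆
            ((range (p ^ a)).filter fun x : ℕ => ((p ^ m : ℕ) : ℤ) ∣ (x : ℤ) - x₀) ∪
            ((range (p ^ a)).filter fun x : ℕ => ((p ^ m : ℕ) : ℤ) ∣ h₁.eval (x : ℤ)) := by
          intro x hx
          simp only [mem_union, mem_filter] at hx ⊢
          obtain ⟨hx1, hx2⟩ := hx
          by_cases hc : ((p ^ m : ℕ) : ℤ) ∣ h₁.eval (x : ℤ)
          · exact Or.inr ⟨hx1, hc⟩
          · refine Or.inl ⟨hx1, ?_⟩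
            have h2 : ((p : ℤ) ^ k) ∣ ((x : ℤ) - x₀) * h₁.eval (x : ℤ) := by
              have h3 : h.eval (x : ℤ) - h.eval (x₀ : ℤ) = ((x : ℤ) - x₀) * h₁.eval (x : ℤ) := by
                have := congrArg (eval (x : ℤ)) hh₁
                simpa using this
              rw [← h3]
              push_cast at hx2 hx₀
              exact dvd_sub hx2 hx₀
            have hmpos : 0 < m := by omega
            have h4 := pow_split hp (v := m - 1) h2 (by
              rw [Nat.sub_add_cancel hmpos]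
              push_cast at hc
              exact hc)
            push_cast
            exact (pow_dvd_pow _ (by omega)).trans h4
        have hcard : cn h (p ^ k) (p ^ a) ≤ p ^ a / p ^ m + cn h₁ (p ^ m) (p ^ a) := by
          unfold cn
          refine (card_le_card hsub).trans ((card_union_le _ _).trans ?_)
          exact Nat.add_le_add_right (cnt_modEq _ _ (pow_pos hp.pos _) (pow_dvd_pow _ hma) _) _
        have hcardR : (cn h (p ^ k) (p ^ a) : ℝ) ≤ (p : ℝ) ^ a * (p : ℝ) ^ (-(m : ℝ)) +
            cn h₁ (p ^ m) (p ^ a) := by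
          have h5 : ((p ^ a / p ^ m : ℕ) : ℝ) = (p : ℝ) ^ a * (p : ℝ) ^ (-(m : ℝ)) := by
            rw [Nat.cast_div (pow_dvd_pow _ hma) (by exact_mod_cast (pow_pos hp.pos m).ne'),
              Real.rpow_neg hp0.le,
              Real.rpow_natCast]
            push_cast
            rfl
          rw [← h5]
          exact_mod_cast hcard
        have ih1 := ih h₁ hdeg1 hnd1 m a hma
        have hmk : (k : ℝ) / 2 ≤ m := by
          have : k ≤ 2 * m := by omega
          have : (k : ℝ) ≤ 2 * m := by exact_mod_cast this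
          linarith
        have h2D : (0 : ℝ) < 2 ^ D := by positivity
        have h2D1 : (1 : ℝ) ≤ 2 ^ D := one_le_pow₀ (by norm_num)
        have e1 : (p : ℝ) ^ (-(m : ℝ)) ≤ (p : ℝ) ^ (-(k : ℝ) / 2 ^ (D + 1)) := by
          apply Real.rpow_le_rpow_of_exponent_le hp1
          rw [neg_div, neg_le_neg_iff, pow_succ]
          have : (k : ℝ) / (2 ^ D * 2) ≤ (k : ℝ) / 2 := by
            apply div_le_div_of_nonneg_left (Nat.cast_nonneg k) (by norm_num)
            linarith
          linarith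
        have e2 : (p : ℝ) ^ (-(m : ℝ) / 2 ^ D) ≤ (p : ℝ) ^ (-(k : ℝ) / 2 ^ (D + 1)) := by
          apply Real.rpow_le_rpow_of_exponent_le hp1
          rw [neg_div, neg_div, neg_le_neg_iff, pow_succ, mul_comm, ← div_div]
          exact div_le_div_of_nonneg_right hmk h2D.le
        have hpa : (0 : ℝ) ≤ (p : ℝ) ^ a := by positivity
        calc (cn h (p ^ k) (p ^ a) : ℝ) ≤ (p : ℝ) ^ a * (p : ℝ) ^ (-(m : ℝ)) +
            cn h₁ (p ^ m) (p ^ a) := hcardR
          _ ≤ (p : ℝ) ^ a * (p : ℝ) ^ (-(k : ℝ) / 2 ^ (D + 1)) +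
              (D + 1) * (p : ℝ) ^ a * (p : ℝ) ^ (-(k : ℝ) / 2 ^ (D + 1)) := by
            refine add_le_add (mul_le_mul_of_nonneg_left e1 hpa) (ih1.trans ?_)
            exact mul_le_mul_of_nonneg_left e2 (by positivity)
          _ = (((D + 1 : ℕ) : ℝ) + 1) * (p : ℝ) ^ a * (p : ℝ) ^ (-(k : ℝ) / 2 ^ (D + 1)) := by
            push_cast; ring
      · have h0 : cn h (p ^ k) (p ^ a) = 0 := by
          unfold cn
          rw [card_eq_zero, filter_eq_empty_iff]
          intro x _ hx
          exact hex ⟨x, hx⟩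
        rw [h0, Nat.cast_zero]
        positivity

end Pool.Agent.Helper29.EP
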