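import Pool.Agent.Helper29.EP.FibA

/-! FIB, local part: fibres modulo prime powers. -/

set_option autoImplicit false

open Polynomial Finset

namespace Pool.Agent.Helper29.EP

/-- the fibre of `r` modulo `q` -/
def fb (F : ℤ[X]) (q : ℕ) (r : ℕ) : Finset ℕ :=
  (range q).filter fun x : ℕ => (q : ℤ) ∣ F.eval (x : ℤ) - F.eval (r : ℤ)

lemma mem_fb {F : ℤ[X]} {q r x : ℕ} :
    x ∈ fb F q r ↔ x < q ∧ (q : ℤ) ∣ F.eval (x : ℤ) - F.eval (r : ℤ) := by
  unfold fb
  rw [mem_filter, mem_range]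

lemma fb_eq {F : ℤ[X]} {q r x : ℕ} (h : x ∈ fb F q r) : fb F q x = fb F q r := by
  rw [mem_fb] at h
  ext y
  rw [mem_fb, mem_fb]
  constructor
  · rintro ⟨h1, h2⟩
    refine ⟨h1, ?_⟩
    have := dvd_add h2 h.2
    have e : F.eval (y : ℤ) - F.eval (x : ℤ) + (F.eval (x : ℤ) - F.eval (r : ℤ)) =
      F.eval (y : ℤ) - F.eval (r : ℤ) := by ring
    rwa [e] at this
  · rintro ⟨h1, h2⟩
    refine ⟨h1, ?_⟩
    have := dvd_sub h2 h.2
    have e : F.eval (y : ℤ) - F.eval (r : ℤ) - (F.eval (x : ℤ) - F.eval (r : ℤ)) =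
      F.eval (y : ℤ) - F.eval (x : ℤ) := by ring
    rwa [e] at this

lemma mem_fb_symm {F : ℤ[X]} {q r x : ℕ} (hr : r < q) (h : x ∈ fb F q r) : r ∈ fb F q x := by
  rw [mem_fb] at h ⊢
  refine ⟨hr, ?_⟩
  have := (dvd_neg (α := ℤ)).2 h.2
  rwa [neg_sub] at this

lemma self_mem_fb {F : ℤ[X]} {q r : ℕ} (hr : r < q) : r ∈ fb F q r := by
  rw [mem_fb]
  exact ⟨hr, by simp⟩

/-- at most `d` roots modulo a prime -/
lemma card_roots_prime {p : ℕ} (hp : p.Prime) (F : ℤ[X]) (d : ℕ) (hF : F.natDegree ≤ d)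
    (hj : ∃ j, 1 ≤ j ∧ ¬ (p : ℤ) ∣ F.coeff j) (c : ℤ) :
    ((range p).filter fun x : ℕ => (p : ℤ) ∣ F.eval (x : ℤ) - c).card ≤ d := by
  have := Fact.mk hp
  set G : (ZMod p)[X] := (F - C c).map (Int.castRingHom (ZMod p)) with hG
  have hG0 : G ≠ 0 := by
    obtain ⟨j, hj1, hj2⟩ := hj
    intro h0
    apply hj2
    have h1 : G.coeff j = 0 := by rw [h0, coeff_zero]
    rw [hG, coeff_map, coeff_sub, coeff_C, if_neg (by omega), sub_zero] at h1
    have h2 : ((F.coeff j : ℤ) : ZMod p) = 0 := h1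
    exact (ZMod.intCast_zmod_eq_zero_iff_dvd _ _).1 h2
  have hdeg : G.natDegree ≤ d := by
    refine natDegree_map_le.trans ((natDegree_sub_le _ _).trans ?_)
    rw [natDegree_C]
    omega
  calc ((range p).filter fun x : ℕ => (p : ℤ) ∣ F.eval (x : ℤ) - c).card ≤ G.roots.toFinset.card := by
        apply card_le_card_of_injOn (fun x => ((x : ℕ) : ZMod p))
        · intro x hx
          simp only [coe_filter, mem_range, Set.mem_ofPred_eq] at hx
          simp only [Finset.mem_coe, Multiset.mem_toFinset]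
          rw [mem_roots hG0, IsRoot.def, hG]
          have h1 : ((F.eval (x : ℤ) - c : ℤ) : ZMod p) = 0 :=
            (ZMod.intCast_zmod_eq_zero_iff_dvd _ _).2 hx.2
          have h2 : eval (((x : ℕ) : ZMod p)) ((F - C c).map (Int.castRingHom (ZMod p))) =
              (((F - C c).eval (x : ℤ) : ℤ) : ZMod p) := by
            have := eval_map_apply (Int.castRingHom (ZMod p)) (x : ℤ) (p := F - C c)
            simpa using this
          rw [h2]
          simpa using h1
        · intro x hx y hy hxy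
          simp only [coe_filter, mem_range, Set.mem_ofPred_eq] at hx hy
          have h1 : ((x : ℕ) : ZMod p) = ((y : ℕ) : ZMod p) := hxy
          rw [ZMod.natCast_eq_natCast_iff'] at h1
          rwa [Nat.mod_eq_of_lt hx.1, Nat.mod_eq_of_lt hy.1] at h1
    _ ≤ Multiset.card G.roots := Multiset.toFinset_card_le _
    _ ≤ G.natDegree := card_roots' _
    _ ≤ d := hdeg

/-- the elements of a fibre with small derivative -/
lemma fibre_small {p : ℕ} (hp : p.Prime) (F : ℤ[X]) (d : ℕ) (hF : F.natDegree ≤ d)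
    (hj : ∃ j, 1 ≤ j ∧ ¬ (p : ℤ) ∣ F.coeff j) (a v : ℕ) (ha : 1 ≤ a) (r : ℕ) :
    ((fb F (p ^ a) r).filter fun x : ℕ =>
      ¬ ((p : ℤ) ^ (v + 1)) ∣ F.derivative.eval (x : ℤ)).card ≤ d * p ^ (2 * v) := by
  set R := (range p).filter fun x : ℕ => (p : ℤ) ∣ F.eval (x : ℤ) - F.eval (r : ℤ) with hR
  have hRc : R.card ≤ d := card_roots_prime hp F d hF hj _
  calc ((fb F (p ^ a) r).filter fun x : ℕ =>
      ¬ ((p : ℤ) ^ (v + 1)) ∣ F.derivative.eval (x : ℤ)).card
      ≤ (R ×ˢ (range (p ^ v) ×ˢ range (p ^ v))).card := by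
        apply card_le_card_of_injOn (fun x => (x % p, ((x / p) % p ^ v, x / p ^ (a - v))))
        · intro x hx
          simp only [coe_filter, Set.mem_ofPred_eq] at hx
          obtain ⟨hx1, hx2⟩ := hx
          rw [mem_fb] at hx1
          simp only [coe_product, Set.mem_prod, mem_coe, mem_range]
          refine ⟨?_, Nat.mod_lt _ (pow_pos hp.pos _), ?_⟩
          · rw [hR, mem_filter, mem_range]
            refine ⟨Nat.mod_lt _ hp.pos, ?_⟩
            have h1 : (p : ℤ) ∣ F.eval (x : ℤ) - F.eval (r : ℤ) := by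
              refine dvd_trans ?_ hx1.2
              push_cast
              exact dvd_pow_self _ (by omega)
            have h2 : (p : ℤ) ∣ ((x % p : ℕ) : ℤ) - (x : ℤ) := by
              rw [Int.natCast_mod]
              have := Int.emod_add_mul_ediv (x : ℤ) p
              exact ⟨-((x : ℤ) / p), by linarith⟩
            have h3 : ((x % p : ℕ) : ℤ) - (x : ℤ) ∣ F.eval ((x % p : ℕ) : ℤ) - F.eval (x : ℤ) :=
              sub_dvd_eval_sub _ _ _
            have := dvd_add (h2.trans h3) h1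
            rwa [sub_add_sub_cancel] at this
          · rw [Nat.div_lt_iff_lt_mul (pow_pos hp.pos _), ← pow_add]
            exact lt_of_lt_of_le hx1.1 (Nat.pow_le_pow_right hp.pos (by omega))
        · intro x hx y hy hxy
          simp only [coe_filter, Set.mem_ofPred_eq] at hx hy
          obtain ⟨hx1, hx2⟩ := hx
          obtain ⟨hy1, hy2⟩ := hy
          rw [mem_fb] at hx1 hy1
          have h0 := Prod.ext_iff.1 hxy
          have h1 : x % p = y % p := h0.1
          have h2 : (x / p) % p ^ v = (y / p) % p ^ v := (Prod.ext_iff.1 h0.2).1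
          have h3 : x / p ^ (a - v) = y / p ^ (a - v) := (Prod.ext_iff.1 h0.2).2
          -- congruent modulo `p ^ (v + 1)`
          have h4 : ((p : ℤ) ^ (v + 1)) ∣ (y : ℤ) - x := by
            have e1 : x % (p * p ^ v) = x % p + p * ((x / p) % p ^ v) := Nat.mod_mul
            have e2 : y % (p * p ^ v) = y % p + p * ((y / p) % p ^ v) := Nat.mod_mul
            have e3 : x % (p * p ^ v) = y % (p * p ^ v) := by rw [e1, e2, h1, h2]
            have e4 : x ≡ y [MOD (p * p ^ v)] := e3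
            have e5 := (Nat.modEq_iff_dvd).1 e4
            have e6 : ((p * p ^ v : ℕ) : ℤ) = (p : ℤ) ^ (v + 1) := by push_cast; ring
            rwa [e6] at e5
          -- Taylor
          obtain ⟨k, hk⟩ := F.binomExpansion (x : ℤ) ((y : ℤ) - x)
          rw [add_sub_cancel] at hk
          have h5 : ((p : ℤ) ^ a) ∣ ((y : ℤ) - x) *
              (F.derivative.eval (x : ℤ) + k * ((y : ℤ) - x)) := by
            have h6 : ((p : ℤ) ^ a) ∣ F.eval (y : ℤ) - F.eval (x : ℤ) := by
              have := dvd_sub hy1.2 hx1.2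
              push_cast at this
              rwa [sub_sub_sub_cancel_right] at this
            have h7 : F.eval (y : ℤ) - F.eval (x : ℤ) = ((y : ℤ) - x) *
              (F.derivative.eval (x : ℤ) + k * ((y : ℤ) - x)) := by
              rw [hk]; ring
            rwa [h7] at h6
          have h6 : ¬ ((p : ℤ) ^ (v + 1)) ∣ (F.derivative.eval (x : ℤ) + k * ((y : ℤ) - x)) := by
            intro hc
            apply hx2
            have := dvd_sub hc (h4.mul_left k)
            rwa [add_sub_cancel_right] at this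
          have h7 := pow_split hp h5 h6
          have h8 : x ≡ y [MOD (p ^ (a - v))] := by
            rw [Nat.modEq_iff_dvd]
            push_cast
            exact h7
          have h9 : x % p ^ (a - v) = y % p ^ (a - v) := h8
          calc x = p ^ (a - v) * (x / p ^ (a - v)) + x % p ^ (a - v) := (Nat.div_add_mod x _).symm
            _ = p ^ (a - v) * (y / p ^ (a - v)) + y % p ^ (a - v) := by rw [h3, h9]
            _ = y := Nat.div_add_mod y _
    _ = R.card * (p ^ v * p ^ v) := by rw [card_product, card_product, card_range]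
    _ ≤ d * (p ^ v * p ^ v) := Nat.mul_le_mul_right _ hRc
    _ = d * p ^ (2 * v) := by rw [← pow_add, two_mul]

/-- the content of the derivative -/
lemma cnt_deriv {p : ℕ} (hp : p.Prime) (F : ℤ[X]) (d : ℕ) (hF : F.natDegree ≤ d)
    (hj : ∃ j, 1 ≤ j ∧ ¬ (p : ℤ) ∣ F.coeff j) (k a : ℕ) (hka : k ≤ a) :
    (cn F.derivative (p ^ k) (p ^ a) : ℝ) ≤
      (d + 1) * d * (p : ℝ) ^ a * (p : ℝ) ^ (-(k : ℝ) / 2 ^ d) := by
  have hp0 : (0 : ℝ) < p := by exact_mod_cast hp.pos
  have hp1 : (1 : ℝ) ≤ p := by exact_mod_cast hp.one_lt.le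
  obtain ⟨j, hj1, hj2⟩ := hj
  have hpz : Prime (p : ℤ) := Nat.prime_iff_prime_int.1 hp
  have hFj : F.coeff j ≠ 0 := by
    intro h0
    rw [h0] at hj2
    exact hj2 (dvd_zero _)
  have hjd : j ≤ d := (le_natDegree_of_ne_zero hFj).trans hF
  have hcoef : F.derivative.coeff (j - 1) = F.coeff j * j := by
    rw [coeff_derivative]
    have : j - 1 + 1 = j := by omega
    rw [this]
    have h2 : (((j - 1 : ℕ) : ℤ) + 1) = j := by
      have : ((j - 1 + 1 : ℕ) : ℤ) = j := by rw [this]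
      exact_mod_cast this
    rw [h2]
  have hc0 : F.derivative.coeff (j - 1) ≠ 0 := by
    rw [hcoef]
    exact mul_ne_zero hFj (by exact_mod_cast (by omega : j ≠ 0))
  -- the largest power of `p` dividing `F'`
  obtain ⟨t, h, ht, hnd⟩ : ∃ (t : ℕ) (h : ℤ[X]), F.derivative = C ((p : ℤ) ^ t) * h ∧
      ¬ C (p : ℤ) ∣ h := by
    have hfin : ∃ t : ℕ, ¬ C ((p : ℤ) ^ (t + 1)) ∣ F.derivative := by
      by_contra hcon
      push Not at hcon
      apply hc0
      by_contra hne
      have hfm : FiniteMultiplicity (p : ℤ) (F.derivative.coeff (j - 1)) := by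
        refine Int.finiteMultiplicity_iff.2 ⟨?_, hne⟩
        simpa using hp.one_lt.ne'
      obtain ⟨n, hn⟩ := hfm
      exact hn ((C_dvd_iff_dvd_coeff _ _).1 (hcon n) _)
    classical
    set t := Nat.find hfin with htdef
    have ht1 : ¬ C ((p : ℤ) ^ (t + 1)) ∣ F.derivative := Nat.find_spec hfin
    have ht2 : C ((p : ℤ) ^ t) ∣ F.derivative := by
      rcases Nat.eq_zero_or_pos t with h0 | h0
      · rw [h0, pow_zero, C_1]
        exact one_dvd _
      · have := Nat.find_min hfin (m := t - 1) (by omega)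
        push Not at this
        rwa [Nat.sub_add_cancel h0] at this
    obtain ⟨h, hh⟩ := ht2
    refine ⟨t, h, hh, fun hc => ht1 ?_⟩
    obtain ⟨g, hg⟩ := hc
    refine ⟨g, ?_⟩
    rw [hh, hg, pow_succ, C_mul]
    ring
  have hpt : p ^ t ≤ d := by
    have h1 : ((p : ℤ) ^ t) ∣ F.coeff j * j := by
      rw [← hcoef, ht, coeff_C_mul]
      exact dvd_mul_right _ _
    have h2 : ((p : ℤ) ^ t) ∣ (j : ℤ) := by
      refine (IsCoprime.pow_left ((Prime.coprime_iff_not_dvd hpz).2 hj2)).dvd_of_dvd_mul_left h1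
    have h3 : p ^ t ∣ j := by exact_mod_cast h2
    exact (Nat.le_of_dvd (by omega) h3).trans hjd
  have hd1 : (1 : ℝ) ≤ d := by exact_mod_cast (by omega : 1 ≤ d)
  have hhdeg : h.natDegree ≤ d := by
    have h1 : F.derivative.natDegree ≤ d := (natDegree_derivative_le F).trans (by omega)
    rw [ht, natDegree_C_mul (pow_ne_zero _ hpz.ne_zero)] at h1
    exact h1
  have h1 := cnt_roots hp d h hhdeg hnd (k - t) a (by omega)
  have h2 : cn F.derivative (p ^ k) (p ^ a) ≤ cn h (p ^ (k - t)) (p ^ a) := by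
    unfold cn
    apply card_le_card
    intro x hx
    rw [mem_filter] at hx ⊢
    refine ⟨hx.1, ?_⟩
    rcases le_or_gt t k with htk | htk
    · have h3 := hx.2
      rw [ht, eval_mul, eval_C] at h3
      push_cast at h3 ⊢
      have h4 : (p : ℤ) ^ k = p ^ t * p ^ (k - t) := by rw [← pow_add]; congr 1; omega
      rw [h4] at h3
      exact (mul_dvd_mul_iff_left (pow_ne_zero _ hpz.ne_zero)).1 h3
    · have : k - t = 0 := by omega
      rw [this, pow_zero, Nat.cast_one]
      exact one_dvd _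
  have h2D : (0 : ℝ) < 2 ^ d := by positivity
  have h2D1 : (1 : ℝ) ≤ 2 ^ d := one_le_pow₀ (by norm_num)
  have h3 : (p : ℝ) ^ (-((k - t : ℕ) : ℝ) / 2 ^ d) ≤ d * (p : ℝ) ^ (-(k : ℝ) / 2 ^ d) := by
    have h4 : (k : ℝ) ≤ ((k - t : ℕ) : ℝ) + t := by exact_mod_cast (by omega : k ≤ k - t + t)
    have h5 : -((k - t : ℕ) : ℝ) / 2 ^ d ≤ (t : ℝ) + -(k : ℝ) / 2 ^ d := by
      have h6 : ((k : ℝ) - ((k - t : ℕ) : ℝ)) / 2 ^ d ≤ t := by
        rw [div_le_iff₀ h2D]
        have : (0 : ℝ) ≤ t := Nat.cast_nonneg t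
        nlinarith
      have h7 : ((k : ℝ) - ((k - t : ℕ) : ℝ)) / 2 ^ d = (k : ℝ) / 2 ^ d - ((k - t : ℕ) : ℝ) / 2 ^ d :=
        sub_div _ _ _
      rw [neg_div, neg_div]
      linarith
    calc (p : ℝ) ^ (-((k - t : ℕ) : ℝ) / 2 ^ d) ≤ (p : ℝ) ^ ((t : ℝ) + -(k : ℝ) / 2 ^ d) :=
          Real.rpow_le_rpow_of_exponent_le hp1 h5
      _ = (p : ℝ) ^ t * (p : ℝ) ^ (-(k : ℝ) / 2 ^ d) := by
          rw [Real.rpow_add hp0, Real.rpow_natCast]
      _ ≤ d * (p : ℝ) ^ (-(k : ℝ) / 2 ^ d) := by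
          apply mul_le_mul_of_nonneg_right _ (by positivity)
          exact_mod_cast hpt
  calc (cn F.derivative (p ^ k) (p ^ a) : ℝ) ≤ cn h (p ^ (k - t)) (p ^ a) := by exact_mod_cast h2
    _ ≤ (d + 1) * (p : ℝ) ^ a * (p : ℝ) ^ (-((k - t : ℕ) : ℝ) / 2 ^ d) := h1
    _ ≤ (d + 1) * (p : ℝ) ^ a * (d * (p : ℝ) ^ (-(k : ℝ) / 2 ^ d)) :=
        mul_le_mul_of_nonneg_left h3 (by positivity)
    _ = (d + 1) * d * (p : ℝ) ^ a * (p : ℝ) ^ (-(k : ℝ) / 2 ^ d) := by ring

end Pool.Agent.Helper29.EP
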